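import Pool.Agent.U187.TN.Full

/-!
# The Tauberian Nagao conjecture for the products of a fibration with modular varieties

Let `f : 𝒳 → 𝒴` be an arbitrary fibration over a number field `K`, with Chow trace `B`.  For a smooth
projective, geometrically connected variety `Z` over `K` the question for the fibration
`f × id : 𝒳 × Z → 𝒴 × Z` concerns the group `P_X(K(𝒴 × Z)) / B(K)`; its generic fibre is the base
change of `X`.  The fibre average is `𝔄 #Z(κ_v) / q_v^{dim Z}`, and the rank is that of
`P_X(K(𝒴)) / B(K)` plus the rank of `Hom_K(Alb Z, B)`: the points of `B` over the function field of `Z`,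
modulo constants.  So the question predicts that the difference `D(T)` of the averages for `f × id` and
for `f` (with the sign of `-𝔄*`) tends to the rank of `Hom_K(Alb Z, B)`.  In a family of varieties `Z_i`
without common isogeny factors of the Albanese varieties this rank is zero for almost all `i`.

Here `Z` runs through the varieties over `K` whose Albanese variety is modular: `H¹(Z)` is a sum of
Galois representations of newforms of weight two, restricted to `K`, with arbitrary multiplicities; for
example all modular curves `X_0(N)` and the curves covered by them, of arbitrary genus.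

We prove that for a family `Z_i` without common newforms the lower limits `c_i` of `D_i(T)`, over all
`i` where they are positive, satisfy `∑ c_i² / w_i ≤ [K : ℚ] ρ`, where `w_i = ∑_x m_i(x)²` (for `K = ℚ`
the rank of `End(Alb Z_i)`), and the same is true for the upper limits, where they are negative; here
`ρ` is the upper limit of the averages of `𝔄_v² / q_v`, which is at most `(2 dim B)²`, as
`𝔄_v = a_v(B) + O(1)`.  If the `w_i` are bounded, then for every `δ > 0` all but finitely many
`D_i(T)` come arbitrarily late below `δ` and above `-δ`; so the limits of `D_i(T)`, if they exist, tend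
to zero.  Nothing is assumed on the fibration or on the existence of limits.

The proof compares the natural averages with Dirichlet series and uses the one-sided orthogonality of
the newforms over number fields and Bessel's inequality (`Pool.Agent.Y722.RS`,
`Pool.Agent.Y149.LN`, `Pool.Agent.U187.NS`).  The definitions are in `Pool.Agent.U187.TN.Defs`,
`Pool.Agent.U187.NS.Defs`, `Pool.Agent.U187.MF.Defs` (`IsNewforms`), `Pool.Agent.W353.FB.Defs`
(`Fibration`, `nagaoValue`, `IsSystem`, `average`) and `Pool.Agent.W353.EF.Defs` (`IsFrobenius`).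
-/

set_option autoImplicit false

namespace Pool.Agent.Results.MP_1a0ddd_nt.ModularBaseChange

open NumberField IsDedekindDomain Filter Topology CongruenceSubgroup
open scoped MatrixGroups
open Pool.Agent.U187.MF (IsNewforms)
open Pool.Agent.U187.NS (VarK IsNewformSum)
open Pool.Agent.W353.FB (Fibration average)
open Pool.Agent.U187.TN

/-- **The Tauberian Nagao averages of products with modular varieties.**  Let `f : 𝒳 → 𝒴` be a
fibration over the number field `K`, `B` a projective variety over `K` of dimension at most `g`, `g ≥ 1`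
(the Chow trace of `f`), and let `F_x`, `x ∈ Ω`, be pairwise different newforms of weight two, for
example all of them.  Let `A v` be the fibre averages of the traces on `H¹` at the primes `v ∉ R₀`, with
`|A v| ≤ C q_v^{1/2}`, and let `ρ` be at least the upper limit of
`T⁻¹ ∑_{q_v ≤ T} A_v² log(q_v) / q_v`.
1. There are functions `s_x(ε)`, `x ∈ Ω`, such that for every finite set `J` of newforms, `η > 0` and all
small `ε > 0` the sum of the `s_x(ε)²` over the `x ∈ J` with `s_x(ε) > 0` is at most `[K : ℚ] ρ + η`,
and so is the sum over the `x ∈ J` with `s_x(ε) < 0`.  For every smooth connected variety `Z` over `K`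
such that `H¹(Z)` is a sum of the newforms `F_x` with multiplicities `m(x)`, the limits for `ε → 0` of
`∑_x m(x) s_x(ε)` lie between the lower and the upper limit for `T → ∞` of the difference `D(T)` of the
averages `-Σ_T(𝔄*) / T` for `f × id : 𝒳 × Z → 𝒴 × Z` and for `f`.
2. Let `Z_i`, `i ∈ I`, be such varieties, with multiplicities `m_i`, every newform occurring in at most
`M` of them, let `w_i = ∑_x m_i(x)²` and `D_i` the function `D` for `Z_i`.  If `J` is finite, `c_i ≥ 0`
and the lower limit of `D_i` is at least `c_i` for all `i ∈ J`, or the upper limit of `D_i` is at most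
`-c_i` for all `i ∈ J`, then the sum of the `c_i² / w_i` over `J` is at most `M [K : ℚ] ρ`.
3. For every `w` and `δ > 0` there are at most `2 M [K : ℚ] ρ w / δ²` indices `i` with `w_i ≤ w` such
that the lower limit of `D_i` is at least `δ` or the upper limit of `D_i` is at most `-δ`. -/
theorem result (K : Type) [Field K] [NumberField K] {Ω : Type} (L : Ω → ℕ)
    (F : ∀ x, CuspForm (Gamma0 (L x) : Subgroup (GL (Fin 2) ℝ)) 2) (hF : IsNewforms L F)
    (f : Fibration K) (n : ℕ) (B : Set (MvPolynomial (Fin n) (𝓞 K))) (g : ℕ) (hg : 1 ≤ g)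
    (R₀ : Finset (HeightOneSpectrum (𝓞 K))) (A : HeightOneSpectrum (𝓞 K) → ℝ)
    (hA : IsAverages f R₀ A) (ρ : ℝ)
    (hρ : UpperLE atTop (average R₀ fun v => A v ^ 2 / (Ideal.absNorm v.asIdeal : ℝ)) ρ) :
    (∃ s : Ω → ℝ → ℝ,
      (∀ (J : Finset Ω) (η : ℝ), 0 < η → ∀ᶠ ε : ℝ in 𝓝[>] 0,
        ∑ x ∈ J, (max (s x ε) 0) ^ 2 ≤ Module.finrank ℚ K * ρ + η ∧
        ∑ x ∈ J, (max (-s x ε) 0) ^ 2 ≤ Module.finrank ℚ K * ρ + η) ∧
      ∀ (Z : VarK K) (m : Ω →₀ ℕ), IsSmoothConnected Z → IsNewformSum F Z m →
        ∀ D, IsNagaoDeviation f B g Z D → ∀ c : ℝ,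
        (LowerGE atTop D c → ∀ η : ℝ, 0 < η → ∀ᶠ ε : ℝ in 𝓝[>] 0,
          c - η ≤ m.sum fun x k => (k : ℝ) * s x ε) ∧
        (UpperLE atTop D c → ∀ η : ℝ, 0 < η → ∀ᶠ ε : ℝ in 𝓝[>] 0,
          (m.sum fun x k => (k : ℝ) * s x ε) ≤ c + η)) ∧
    ∀ (I : Type) (Z : I → VarK K) (m : I → Ω →₀ ℕ) (M : ℕ), (∀ i, IsSmoothConnected (Z i)) →
      (∀ i, IsNewformSum F (Z i) (m i)) →
      (∀ (x : Ω) (S : Finset I), (∀ i ∈ S, m i x ≠ 0) → S.card ≤ M) →
      ∀ D : I → ℕ → ℝ, (∀ i, IsNagaoDeviation f B g (Z i) (D i)) →
      (∀ (J : Finset I) (c : I → ℝ), (∀ i ∈ J, 0 ≤ c i) →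
        ((∀ i ∈ J, LowerGE atTop (D i) (c i)) ∨ ∀ i ∈ J, UpperLE atTop (D i) (-c i)) →
        ∑ i ∈ J, c i ^ 2 / ((m i).sum fun _ k => k ^ 2 : ℕ) ≤
          M * (Module.finrank ℚ K * ρ)) ∧
      ∀ (w : ℕ) (δ : ℝ), 0 < δ →
        {i | ((m i).sum fun _ k => k ^ 2) ≤ w ∧
          (LowerGE atTop (D i) δ ∨ UpperLE atTop (D i) (-δ))}.Finite ∧
        ({i | ((m i).sum fun _ k => k ^ 2) ≤ w ∧
          (LowerGE atTop (D i) δ ∨ UpperLE atTop (D i) (-δ))}.ncard : ℝ) ≤
          2 * (M * (Module.finrank ℚ K * ρ)) * w / δ ^ 2 :=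
  natural' hF hg hA hρ

end Pool.Agent.Results.MP_1a0ddd_nt.ModularBaseChange
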