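import Pool.Agent.U62.NG.Fin
import Pool.Agent.U581.WW.LinMain

/-!
# The sums of Nagao of random fibrations as processes: Brownian motion

For the fibrations `Y² = f(X, T)` over the affine `T`-line, monic of degree `2 g + 1` in `X`, with `r ≤ 2 g - 1` marked sections
over `X = ξ_1, ..., ξ_r` and random integer coefficients we consider the sums of Nagao `∑_{p ≤ x} 𝔄_p log p`, `x ≤ T`, as a random
function of `x`. The deviation from the expected value `-r ∑_{p ≤ x} log p`, as a function of `x / T` and divided by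
`(T log T) ^ (1/2)`, is a random continuous function on `[0, 1]`. The theorem: in the space `C[0, 1]` it converges in distribution
to the Brownian motion, for `T → ∞` and `log H / log T → ∞`. So the law of every continuous functional of the
whole path converges, for example of the largest deviation `max_{x ≤ T} |∑_{p ≤ x} (𝔄_p + r) log p| / (T log T) ^ (1/2)`. The same
holds for all other weights, if no single prime has an essential part of the variance.
-/

set_option autoImplicit false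

namespace Pool.Agent.Results.MP_1a0ddd_nt.NagaoBrownian

open Finset MeasureTheory ProbabilityTheory
open scoped BoundedContinuousFunction NNReal

/-- The indices of the coefficients: the polynomials `C_k`, `k < m`, and `η_i`, `i < r`, of degree at most `n` in `t`. -/
abbrev Index (m r n : ℕ) : Type := (Fin m ⊕ Fin r) × Fin (n + 1)

variable {m r n : ℕ}

/-- The value at `t` of the polynomial with the index `k` (`C_k(t)` or `η_k(t)`). -/
def coeff {R : Type} [CommRing R] (c : Index m r n → R) (k : Fin m ⊕ Fin r) (t : R) : R := ∑ j, c (k, j) * t ^ (j : ℕ)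

/-- The equation of the fibration `Y² = rhs ξ c t X`:
`∏ (X - ξ_i) (X ^ m + ∑ C_k(t) X ^ k) + ∑_i ∏_{j ≠ i} (ξ_i - ξ_j) ∏_{j ≠ i} (X - ξ_j) η_i(t) ^ 2`. -/
def rhs {R : Type} [CommRing R] (ξ : Fin r → R) (c : Index m r n → R) (t x : R) : R :=
  (∏ i, (x - ξ i)) * (x ^ m + ∑ k : Fin m, coeff c (Sum.inl k) t * x ^ (k : ℕ)) +
    ∑ i, (∏ j ∈ univ.erase i, (ξ i - ξ j)) * (∏ j ∈ univ.erase i, (x - ξ j)) * coeff c (Sum.inr i) t ^ 2

/-- The number of the solutions modulo `p` of the equation of the fibre over `t`. -/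
noncomputable def points (ξ : Fin r → ℤ) (c : Index m r n → ℤ) (p t : ℕ) : ℕ :=
  Nat.card {P : ZMod p × ZMod p // P.2 ^ 2 = rhs (fun i => (ξ i : ZMod p)) (fun k => (c k : ZMod p)) (t : ZMod p) P.1}

/-- The fibre average `𝔄_p`: the mean over `t` modulo `p` of the trace of Frobenius `p + 1 - #X_t(F_p)` of the fibre (with one point at
infinity). -/
noncomputable def fibreAverage (ξ : Fin r → ℤ) (c : Index m r n → ℤ) (p : ℕ) : ℝ :=
  (∑ t ∈ range p, (((p : ℝ) + 1) - ((points ξ c p t : ℝ) + 1))) / p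

/-- The primes up to `x`. -/
def primesUpTo (x : ℕ) : Finset ℕ := (range (x + 1)).filter Nat.Prime

/-- The deviation of the sum of Nagao `∑_{p ≤ x} 𝔄_p log p` from `-r ∑_{p ≤ x} log p`. -/
noncomputable def deviation (ξ : Fin r → ℤ) (c : Index m r n → ℤ) (x : ℕ) : ℝ :=
  ∑ p ∈ primesUpTo x, Real.log p * fibreAverage ξ c p + r * ∑ p ∈ primesUpTo x, Real.log p

/-- The path of the sums of Nagao up to `T`: the polygonal path with the value `deviation ξ c x / (T log T) ^ (1 / 2)` at the time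
`x / T` for the integers `0 ≤ x ≤ T`, linear in between. -/
noncomputable def nagaoPath (ξ : Fin r → ℤ) (c : Index m r n → ℤ) (T : ℕ) : C(unitInterval, ℝ) where
  toFun t := (deviation ξ c 0 + ∑ x ∈ range T, (deviation ξ c (x + 1) - deviation ξ c x) *
    max 0 (min 1 ((T : ℝ) * t - x))) / √(T * Real.log T)
  continuous_toFun := by fun_prop

/-- The polygonal path of the partial sums of the `w_p g_p`, `p ∈ P`, run by the clock `w_p²`: with `V = ∑_{q ∈ P} w_q²` it has at
the times `∑_{q ∈ P, q < p} w_q² / V`, `p ∈ P`, the values `∑_{q ∈ P, q < p} w_q g_q / √V`, at the time `1` the value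
`∑_{q ∈ P} w_q g_q / √V`, and is linear in between. -/
noncomputable def path (P : Finset ℕ) (w g : ℕ → ℝ) : C(unitInterval, ℝ) where
  toFun t := (∑ p ∈ P, w p * g p * max 0 (min 1 ((t * (∑ q ∈ P, w q ^ 2) -
    ∑ q ∈ P.filter (fun q => q < p), w q ^ 2) / w p ^ 2))) / √(∑ q ∈ P, w q ^ 2)
  continuous_toFun := by fun_prop

/-- The mean value of `f` over the integer vectors `c` with coordinates of absolute value at most `H`. -/
noncomputable def boxMean (H : ℕ) (f : (Index m r n → ℤ) → ℝ) : ℝ :=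
  (∑ c ∈ Fintype.piFinset (fun _ : Index m r n => Finset.Icc (-(H : ℤ)) H), f c) /
    (2 * H + 1 : ℝ) ^ ((m + r) * (n + 1))

/-- The path of `B` on `[0, 1]` as a continuous function (and `0` if it is not continuous). -/
noncomputable def unitPath {Ω : Type} (B : ℝ≥0 → Ω → ℝ) (ω : Ω) : C(unitInterval, ℝ) :=
  ContinuousMap.mkD (fun t : unitInterval => B ⟨(t : ℝ), t.2.1⟩ ω) 0

theorem card_index : Fintype.card (Index m r n) = (m + r) * (n + 1) := by
  simp [Index, Fintype.card_prod, Fintype.card_sum]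

open Pool.Agent.U62.NG in
theorem rhs_eq {R : Type} [CommRing R] (ξ : Fin r → R) (c : Index m r n → R) (t x : R) :
    rhs ξ c t x = Fv ξ (fun k => coeff c k t) x := rfl

open Pool.Agent.U62.NG Pool.Agent.N647.NG in
theorem points_eq (ξ : Fin r → ℤ) (c : Index m r n → ℤ) (p t : ℕ) [hp : Fact p.Prime] (h2 : p ≠ 2) :
    (points ξ c p t : ℝ) = p + sv (fun i => ((ξ i : ℤ) : ZMod p))
      (vt (Pool.Agent.Y722.HS.red p c) (t : ZMod p)) := by
  have hr : ringChar (ZMod p) ≠ 2 := by rwa [ZMod.ringChar_zmod_n]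
  unfold points
  have e1 : {P : ZMod p × ZMod p // P.2 ^ 2 = rhs (fun i => (ξ i : ZMod p)) (fun k => (c k : ZMod p)) (t : ZMod p) P.1} ≃
      Σ x : ZMod p, {y : ZMod p // y ^ 2 = rhs (fun i => (ξ i : ZMod p)) (fun k => (c k : ZMod p)) (t : ZMod p) x} :=
    { toFun := fun P => ⟨P.1.1, P.1.2, P.2⟩
      invFun := fun Q => ⟨(Q.1, Q.2.1), Q.2.2⟩
      left_inv := fun _ => rfl
      right_inv := fun _ => rfl }
  rw [Nat.card_congr e1, Nat.card_sigma]
  push_cast
  simp only [card_sqrt hr]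
  rw [Finset.sum_add_distrib, Finset.sum_const, card_univ, ZMod.card, nsmul_eq_mul, mul_one]
  rfl

theorem sq_two : ∀ y : ZMod 2, y ^ 2 = y := by decide

theorem points_two (ξ : Fin r → ℤ) (c : Index m r n → ℤ) (t : ℕ) : points ξ c 2 t = 2 := by
  unfold points
  have e1 : {P : ZMod 2 × ZMod 2 // P.2 ^ 2 = rhs (fun i => (ξ i : ZMod 2)) (fun k => (c k : ZMod 2)) (t : ZMod 2) P.1} ≃
      ZMod 2 :=
    { toFun := fun P => P.1.1
      invFun := fun x => ⟨(x, rhs (fun i => (ξ i : ZMod 2)) (fun k => (c k : ZMod 2)) (t : ZMod 2) x), sq_two _⟩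
      left_inv := fun P => by
        apply Subtype.ext
        apply Prod.ext
        · rfl
        · show rhs _ _ _ P.1.1 = P.1.2
          rw [← P.2, sq_two]
      right_inv := fun _ => rfl }
  rw [Nat.card_congr e1, Nat.card_zmod]

open Pool.Agent.U62.NG in
theorem average_eq (ξ : Fin r → ℤ) (c : Index m r n → ℤ) (p : ℕ) (hp : p.Prime) :
    fibreAverage ξ c p = UU (D := n + 1) ξ p (Pool.Agent.Y722.HS.red p c) := by
  unfold fibreAverage
  by_cases h2 : p = 2
  · subst h2
    simp only [points_two]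
    unfold UU
    rw [dif_neg (fun h => h.2 rfl)]
    norm_num
  · have : Fact p.Prime := ⟨hp⟩
    rw [UU_eq ξ p h2]
    congr 1
    have e : ∀ t : ℕ, (((p : ℝ) + 1) - ((points ξ c p t : ℝ) + 1)) =
        -(sv (fun i => ((ξ i : ℤ) : ZMod p)) (vt (Pool.Agent.Y722.HS.red p c) (t : ZMod p))) := by
      intro t
      rw [points_eq ξ c p t h2]
      ring
    simp only [e]
    rw [Finset.sum_neg_distrib]
    congr 1
    refine Finset.sum_bij (fun t _ => (t : ZMod p)) (fun _ _ => mem_univ _) ?_ ?_ fun _ _ => rfl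
    · intro a ha b hb hab
      rw [ZMod.natCast_eq_natCast_iff] at hab
      exact Nat.ModEq.eq_of_lt_of_lt hab (mem_range.1 ha) (mem_range.1 hb)
    · intro z _
      exact ⟨z.val, mem_range.2 (ZMod.val_lt z), ZMod.natCast_zmod_val z⟩

open Pool.Agent.U62.NG in
theorem UU_bound {D g : ℕ} (hg : m + r = 2 * g + 1) (ξ : Fin r → ℤ) (p : ℕ) (hp : p.Prime)
    (c : (Fin m ⊕ Fin r) × Fin D → ZMod p) : |UU ξ p c| ≤ 2 * g * √p := by
  by_cases h2 : p = 2
  · subst h2
    unfold UU
    rw [dif_neg (fun h => h.2 rfl), abs_zero]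
    positivity
  · have : Fact p.Prime := ⟨hp⟩
    have hr : ringChar (ZMod p) ≠ 2 := by rwa [ZMod.ringChar_zmod_n]
    have hp0 : (0 : ℝ) < p := by exact_mod_cast hp.pos
    rw [UU_eq ξ p h2, abs_div, abs_neg, abs_of_pos hp0, div_le_iff₀ hp0]
    calc |∑ t : ZMod p, sv (fun i => ((ξ i : ℤ) : ZMod p)) (vt c t)|
        ≤ ∑ t : ZMod p, |sv (fun i => ((ξ i : ℤ) : ZMod p)) (vt c t)| := Finset.abs_sum_le_sum_abs _ _
      _ ≤ ∑ _t : ZMod p, 2 * g * √p := by
          refine Finset.sum_le_sum fun t _ => ?_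
          have := sv_le hr hg (fun i => ((ξ i : ℤ) : ZMod p)) (vt c t)
          rwa [ZMod.card] at this
      _ = _ := by
          rw [Finset.sum_const, card_univ, ZMod.card, nsmul_eq_mul]
          ring

open Pool.Agent.U581.WW Pool.Agent.U62.NG in
theorem deviation_step (ξ : Fin r → ℤ) (c : Index m r n → ℤ) {T x : ℕ} (hx : x < T) :
    deviation ξ c (x + 1) - deviation ξ c x = on (Pool.Agent.U62.CL.PT T) (fun p => Real.log p *
      (UU (D := n + 1) ξ p (Pool.Agent.Y722.HS.red p c) - -(r : ℝ))) (x + 1) := by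
  unfold deviation primesUpTo on Pool.Agent.U62.CL.PT
  have e : ∀ f : ℕ → ℝ, ∑ p ∈ (range (x + 1 + 1)).filter Nat.Prime, f p =
      ∑ p ∈ (range (x + 1)).filter Nat.Prime, f p + if (x + 1).Prime then f (x + 1) else 0 := by
    intro f
    rw [Finset.sum_filter, Finset.sum_filter, Finset.sum_range_succ]
  rw [e, e]
  by_cases h : (x + 1).Prime
  · rw [if_pos h, if_pos h, if_pos (by
      rw [Finset.mem_filter, Finset.mem_range]
      exact ⟨by omega, h⟩), average_eq ξ c (x + 1) h]
    ring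
  · rw [if_neg h, if_neg h, if_neg (fun h' => h (Finset.mem_filter.1 h').2)]
    ring

theorem deviation_zero (ξ : Fin r → ℤ) (c : Index m r n → ℤ) : deviation ξ c 0 = 0 := by
  unfold deviation primesUpTo
  rw [Finset.filter_false_of_mem (fun p hp => by
    have : p = 0 := by
      rw [Finset.mem_range] at hp
      omega
    subst this
    exact Nat.not_prime_zero), Finset.sum_empty, Finset.sum_empty]
  ring

/-- **The sums of Nagao of random fibrations as processes.** Let `m ≥ 2`, `m + r = 2 g + 1`, `n ≥ 3`, and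
let `ξ_1, ..., ξ_r` be different integers. The fibration `Y² = rhs ξ c T X` has the sections `X = ξ_i`, `Y = ∏_{j ≠ i} (ξ_i - ξ_j) η_i(T)`.
For every Brownian motion `B`, every bounded continuous function `F` on `C[0, 1]` and `ε > 0` there is a `K` such that
(1) for all `T ≥ K` and `H ≥ T ^ K` the mean value of `F (nagaoPath ξ c T)` over the integer coefficients `|c_i| ≤ H` differs from
the mean value of `F (B)` by at most `ε`;
(2) for every finite set `P` of primes `p ≤ y`, all weights with `K w_p² ≤ ∑_{q ∈ P} w_q²`, `∑ w_q² > 0`, and all `y ≥ K`,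
`H ≥ y ^ K` this holds for the path of the partial sums of `w_p (𝔄_p + r)`. -/
theorem result (m r n g : ℕ) (hm : 2 ≤ m) (hg : m + r = 2 * g + 1) (hn : 3 ≤ n) (ξ : Fin r → ℤ)
    (hξ : Function.Injective ξ) :
    (∀ (c : Index m r n → ℤ) (t : ℤ) (i : Fin r),
      ((∏ j ∈ univ.erase i, (ξ i - ξ j)) * coeff c (Sum.inr i) t) ^ 2 = rhs ξ c t (ξ i)) ∧
    ∀ (Ω : Type) [MeasurableSpace Ω] (μ : Measure Ω) [IsProbabilityMeasure μ] (B : ℝ≥0 → Ω → ℝ),
      IsBrownianReal B μ → ∀ (F : C(unitInterval, ℝ) →ᵇ ℝ) (ε : ℝ), 0 < ε →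
        (∃ K : ℕ, ∀ T H : ℕ, K ≤ T → T ^ K ≤ H →
          |boxMean H (fun c : Index m r n → ℤ => F (nagaoPath ξ c T)) - ∫ ω, F (unitPath B ω) ∂μ| ≤ ε) ∧
        (∃ K : ℕ, ∀ (P : Finset ℕ) (w : ℕ → ℝ) (y H : ℕ), (∀ p ∈ P, p.Prime ∧ p ≤ y) → K ≤ y → y ^ K ≤ H →
          0 < ∑ q ∈ P, w q ^ 2 → (∀ p ∈ P, K * w p ^ 2 ≤ ∑ q ∈ P, w q ^ 2) →
          |boxMean H (fun c : Index m r n → ℤ => F (path P w (fun p => fibreAverage ξ c p + r))) -
            ∫ ω, F (unitPath B ω) ∂μ| ≤ ε) := by
  obtain ⟨C, hC⟩ := Pool.Agent.U62.NG.ld_UU (D := n + 1) (by omega) hm hg hξ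
  refine ⟨fun c t i => ?_, ?_⟩
  · rw [rhs_eq, Pool.Agent.U62.NG.Fv_mark]
    rfl
  · intro Ω _ μ _ B hB F ε hε
    let _ : MeasurableSpace C(unitInterval, ℝ) := borel _
    have _ : BorelSpace C(unitInterval, ℝ) := ⟨rfl⟩
    have hbd := fun (p : ℕ) (hp : p.Prime) x => UU_bound (D := n + 1) hg ξ p hp x
    refine ⟨?_, ?_⟩
    · obtain ⟨K, hK⟩ := Pool.Agent.U581.WW.lin_main hC hbd hB F hε
      refine ⟨K, fun T H hT hH => ?_⟩
      have h1 := hK T H hT hH
      unfold Pool.Agent.Y722.HS.EB at h1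
      rw [card_index] at h1
      refine le_trans (le_of_eq ?_) h1
      congr 2
      unfold boxMean
      congr 1
      refine Finset.sum_congr rfl fun c _ => ?_
      change F _ = F _
      congr 1
      refine ContinuousMap.ext fun t => ?_
      change (deviation ξ c 0 + ∑ x ∈ range T, (deviation ξ c (x + 1) - deviation ξ c x) *
        max 0 (min 1 ((T : ℝ) * t - x))) / √(T * Real.log T) =
        (∑ x ∈ range T, Pool.Agent.U581.WW.on (Pool.Agent.U62.CL.PT T) (fun p => Real.log p *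
          (Pool.Agent.U62.NG.UU (D := n + 1) ξ p (Pool.Agent.Y722.HS.red p c) - -(r : ℝ))) (x + 1) *
          max 0 (min 1 ((T : ℝ) * t - x))) / √(T * Real.log T)
      rw [deviation_zero, zero_add]
      congr 1
      refine Finset.sum_congr rfl fun x hx => ?_
      rw [deviation_step ξ c (Finset.mem_range.1 hx)]
    · obtain ⟨K, hK⟩ := Pool.Agent.U581.WW.gen_main hC hbd hB F hε
      refine ⟨K, fun P w y H hP hy hH hV hw => ?_⟩
      have h1 := hK P w y H hP hy hH hV hw
      unfold Pool.Agent.Y722.HS.EB at h1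
      rw [card_index] at h1
      refine le_trans (le_of_eq ?_) h1
      congr 2
      unfold boxMean
      congr 1
      refine Finset.sum_congr rfl fun c _ => ?_
      change F _ = F _
      congr 1
      refine ContinuousMap.ext fun t => ?_
      change (∑ p ∈ P, w p * (fibreAverage ξ c p + r) * max 0 (min 1 ((t * (∑ q ∈ P, w q ^ 2) -
        ∑ q ∈ P.filter (fun q => q < p), w q ^ 2) / w p ^ 2))) / √(∑ q ∈ P, w q ^ 2) =
        (∑ p ∈ P, w p * (Pool.Agent.U62.NG.UU (D := n + 1) ξ p (Pool.Agent.Y722.HS.red p c) - -(r : ℝ)) *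
        max 0 (min 1 ((t * (∑ q ∈ P, w q ^ 2) -
        ∑ q ∈ P.filter (fun q => q < p), w q ^ 2) / w p ^ 2))) / √(∑ q ∈ P, w q ^ 2)
      congr 1
      refine Finset.sum_congr rfl fun p hp => ?_
      rw [average_eq ξ c p (hP p hp).1]
      ring

end Pool.Agent.Results.MP_1a0ddd_nt.NagaoBrownian
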