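import Pool.Agent.U62.NG.Fin

/-!
# The sums of Nagao for random fibrations by hyperelliptic curves with marked sections

For the fibrations `Y² = f(X, T)` over the affine `T`-line, monic of degree `2 g + 1` in `X`, with `r ≤ 2 g - 1` marked sections
over `X = ξ_1, ..., ξ_r` and random integer coefficients, the sums `∑_{p ≤ T} 𝔄_p log p` of the fibre averages of the traces of
Frobenius are, for coefficients up to a large power of `T`, asymptotically normal with the mean `-r ∑ log p`, as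
the conjecture predicts for the rank `r`, and the variance `∑ log² p`.
-/

set_option autoImplicit false

namespace Pool.Agent.Results.MP_1a0ddd_nt.NormalLaw

open Finset ProbabilityTheory

/-- The indices of the coefficients: the polynomials `C_k`, `k < m`, and `η_i`, `i < r`, of degree at most `n` in `t`. -/
abbrev Index (m r n : ℕ) : Type := (Fin m ⊕ Fin r) × Fin (n + 1)

variable {m r n : ℕ}

/-- The value at `t` of the polynomial with the index `k` (`C_k(t)` or `η_k(t)`). -/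
def coeff {R : Type} [CommRing R] (c : Index m r n → R) (k : Fin m ⊕ Fin r) (t : R) : R := ∑ j, c (k, j) * t ^ (j : ℕ)

/-- The equation of the fibration `Y² = rhs ξ c t X`:
`∏ (X - ξ_i) (X ^ m + ∑ C_k(t) X ^ k) + ∑_i ∏_{j ≠ i} (ξ_i - ξ_j) ∏_{j ≠ i} (X - ξ_j) η_i(t) ^ 2`. -/
def rhs {R : Type} [CommRing R] (ξ : Fin r → R) (c : Index m r n → R) (t x : R) : R :=
  (∏ i, (x - ξ i)) * (x ^ m + ∑ k : Fin m, coeff c (Sum.inl k) t * x ^ (k : ℕ)) +
    ∑ i, (∏ j ∈ univ.erase i, (ξ i - ξ j)) * (∏ j ∈ univ.erase i, (x - ξ j)) * coeff c (Sum.inr i) t ^ 2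

/-- The number of the solutions modulo `p` of the equation of the fibre over `t`. -/
noncomputable def points (ξ : Fin r → ℤ) (c : Index m r n → ℤ) (p t : ℕ) : ℕ :=
  Nat.card {P : ZMod p × ZMod p // P.2 ^ 2 = rhs (fun i => (ξ i : ZMod p)) (fun k => (c k : ZMod p)) (t : ZMod p) P.1}

/-- The fibre average `𝔄_p`: the mean over `t` modulo `p` of the trace of Frobenius `p + 1 - #X_t(F_p)` of the fibre (with one point at
infinity). -/
noncomputable def fibreAverage (ξ : Fin r → ℤ) (c : Index m r n → ℤ) (p : ℕ) : ℝ :=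
  (∑ t ∈ range p, (((p : ℝ) + 1) - ((points ξ c p t : ℝ) + 1))) / p

/-- The primes up to `T`. -/
def primesUpTo (T : ℕ) : Finset ℕ := (range (T + 1)).filter Nat.Prime

/-- The sum of Nagao `Σ_T(𝔄) = ∑_{p ≤ T} 𝔄_p log p`. -/
noncomputable def nagaoSum (ξ : Fin r → ℤ) (c : Index m r n → ℤ) (T : ℕ) : ℝ :=
  ∑ p ∈ primesUpTo T, Real.log p * fibreAverage ξ c p

/-- The proportion of the integer vectors `c` with coordinates of absolute value at most `H` which have the property `Q`. -/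
noncomputable def proportion (H : ℕ) (Q : (Index m r n → ℤ) → Prop) : ℝ :=
  ({c : Index m r n → ℤ | (∀ i, |c i| ≤ H) ∧ Q c}.ncard : ℝ) / (2 * H + 1 : ℝ) ^ ((m + r) * (n + 1))

/-- The distribution function of the standard normal law. -/
noncomputable def normal (u : ℝ) : ℝ := (gaussianReal 0 1).real (Set.Iic u)

theorem card_index : Fintype.card (Index m r n) = (m + r) * (n + 1) := by
  simp [Index, Fintype.card_prod, Fintype.card_sum]

open Pool.Agent.U62.NG in
theorem rhs_eq {R : Type} [CommRing R] (ξ : Fin r → R) (c : Index m r n → R) (t x : R) :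
    rhs ξ c t x = Fv ξ (fun k => coeff c k t) x := rfl

open Pool.Agent.U62.NG Pool.Agent.N647.NG in
theorem points_eq (ξ : Fin r → ℤ) (c : Index m r n → ℤ) (p t : ℕ) [hp : Fact p.Prime] (h2 : p ≠ 2) :
    (points ξ c p t : ℝ) = p + sv (fun i => ((ξ i : ℤ) : ZMod p))
      (vt (Pool.Agent.Y722.HS.red p c) (t : ZMod p)) := by
  have hr : ringChar (ZMod p) ≠ 2 := by rwa [ZMod.ringChar_zmod_n]
  unfold points
  have e1 : {P : ZMod p × ZMod p // P.2 ^ 2 = rhs (fun i => (ξ i : ZMod p)) (fun k => (c k : ZMod p)) (t : ZMod p) P.1} ≃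
      Σ x : ZMod p, {y : ZMod p // y ^ 2 = rhs (fun i => (ξ i : ZMod p)) (fun k => (c k : ZMod p)) (t : ZMod p) x} :=
    { toFun := fun P => ⟨P.1.1, P.1.2, P.2⟩
      invFun := fun Q => ⟨(Q.1, Q.2.1), Q.2.2⟩
      left_inv := fun _ => rfl
      right_inv := fun _ => rfl }
  rw [Nat.card_congr e1, Nat.card_sigma]
  push_cast
  simp only [card_sqrt hr]
  rw [Finset.sum_add_distrib, Finset.sum_const, card_univ, ZMod.card, nsmul_eq_mul, mul_one]
  rfl

theorem sq_two : ∀ y : ZMod 2, y ^ 2 = y := by decide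

theorem points_two (ξ : Fin r → ℤ) (c : Index m r n → ℤ) (t : ℕ) : points ξ c 2 t = 2 := by
  unfold points
  have e1 : {P : ZMod 2 × ZMod 2 // P.2 ^ 2 = rhs (fun i => (ξ i : ZMod 2)) (fun k => (c k : ZMod 2)) (t : ZMod 2) P.1} ≃
      ZMod 2 :=
    { toFun := fun P => P.1.1
      invFun := fun x => ⟨(x, rhs (fun i => (ξ i : ZMod 2)) (fun k => (c k : ZMod 2)) (t : ZMod 2) x), sq_two _⟩
      left_inv := fun P => by
        apply Subtype.ext
        apply Prod.ext
        · rfl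
        · show rhs _ _ _ P.1.1 = P.1.2
          rw [← P.2, sq_two]
      right_inv := fun _ => rfl }
  rw [Nat.card_congr e1, Nat.card_zmod]

open Pool.Agent.U62.NG in
theorem average_eq (ξ : Fin r → ℤ) (c : Index m r n → ℤ) (p : ℕ) (hp : p.Prime) :
    fibreAverage ξ c p = UU (D := n + 1) ξ p (Pool.Agent.Y722.HS.red p c) := by
  unfold fibreAverage
  by_cases h2 : p = 2
  · subst h2
    simp only [points_two]
    unfold UU
    rw [dif_neg (fun h => h.2 rfl)]
    norm_num
  · have : Fact p.Prime := ⟨hp⟩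
    rw [UU_eq ξ p h2]
    congr 1
    have e : ∀ t : ℕ, (((p : ℝ) + 1) - ((points ξ c p t : ℝ) + 1)) =
        -(sv (fun i => ((ξ i : ℤ) : ZMod p)) (vt (Pool.Agent.Y722.HS.red p c) (t : ZMod p))) := by
      intro t
      rw [points_eq ξ c p t h2]
      ring
    simp only [e]
    rw [Finset.sum_neg_distrib]
    congr 1
    refine Finset.sum_bij (fun t _ => (t : ZMod p)) (fun _ _ => mem_univ _) ?_ ?_ fun _ _ => rfl
    · intro a ha b hb hab
      rw [ZMod.natCast_eq_natCast_iff] at hab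
      exact Nat.ModEq.eq_of_lt_of_lt hab (mem_range.1 ha) (mem_range.1 hb)
    · intro z _
      exact ⟨z.val, mem_range.2 (ZMod.val_lt z), ZMod.natCast_zmod_val z⟩

/-- **The normal law for the sums of Nagao of random fibrations with marked sections.** Let `m ≥ 2`, `m + r = 2 g + 1`, `n ≥ 3`, and
let `ξ_1, ..., ξ_r` be different integers. The fibration `Y² = rhs ξ c T X` has the sections `X = ξ_i`, `Y = ∏_{j ≠ i} (ξ_i - ξ_j) η_i(T)`.
For all `u`, `δ > 0` and `ε > 0` there is a `K` such that for every set `P` of at least `K` primes `p ≤ y`, all weights `|w_p| ≤ 1`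
with `∑ w_p² ≥ δ |P|` and all `H ≥ y ^ K` the proportion of the integer coefficients `|c_i| ≤ H` with
`∑ w_p 𝔄_p ≤ -r ∑ w_p + u √(∑ w_p²)` differs from `Φ(u)` by at most `ε`. In particular, for `T ≥ K` and `H ≥ T ^ K` the
proportion of the `c` with `∑_{p ≤ T} 𝔄_p log p ≤ -r ∑_{p ≤ T} log p + u √(∑_{p ≤ T} log² p)` differs from `Φ(u)` by at most `ε`. -/
theorem result (m r n g : ℕ) (hm : 2 ≤ m) (hg : m + r = 2 * g + 1) (hn : 3 ≤ n) (ξ : Fin r → ℤ)
    (hξ : Function.Injective ξ) :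
    (∀ (c : Index m r n → ℤ) (t : ℤ) (i : Fin r),
      ((∏ j ∈ univ.erase i, (ξ i - ξ j)) * coeff c (Sum.inr i) t) ^ 2 = rhs ξ c t (ξ i)) ∧
    (∀ u δ ε : ℝ, 0 < δ → 0 < ε → ∃ K : ℕ, ∀ (P : Finset ℕ) (w : ℕ → ℝ) (y H : ℕ), (∀ p ∈ P, p.Prime ∧ p ≤ y) →
      (∀ p ∈ P, |w p| ≤ 1) → δ * P.card ≤ ∑ p ∈ P, w p ^ 2 → K ≤ P.card → y ^ K ≤ H →
      |proportion H (fun c : Index m r n → ℤ => ∑ p ∈ P, w p * fibreAverage ξ c p ≤
        -r * ∑ p ∈ P, w p + u * √(∑ p ∈ P, w p ^ 2)) - normal u| ≤ ε) ∧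
    (∀ u ε : ℝ, 0 < ε → ∃ K : ℕ, ∀ T H : ℕ, K ≤ T → T ^ K ≤ H →
      |proportion H (fun c : Index m r n → ℤ => nagaoSum ξ c T ≤
        -r * ∑ p ∈ primesUpTo T, Real.log p + u * √(∑ p ∈ primesUpTo T, Real.log p ^ 2)) - normal u| ≤ ε) := by
  obtain ⟨C, hC⟩ := Pool.Agent.U62.NG.ld_UU (D := n + 1) (by omega) hm hg hξ
  refine ⟨fun c t i => ?_, fun u δ ε hδ hε => ?_, fun u ε hε => ?_⟩
  · rw [rhs_eq, Pool.Agent.U62.NG.Fv_mark]
    rfl
  · obtain ⟨K, hK⟩ := Pool.Agent.U62.NG.law_sets hC δ hδ u ε hε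
    refine ⟨K, fun P w y H hP hw hvar hcard hH => ?_⟩
    have h := hK P w y H hP hw hvar hcard hH
    rw [card_index] at h
    refine le_trans (le_of_eq ?_) h
    unfold proportion normal
    congr 3
    congr 2
    ext c
    simp only [Set.mem_ofPred_eq]
    refine and_congr_right fun _ => ?_
    rw [Finset.sum_congr rfl fun p hp => by rw [average_eq ξ c p (hP p hp).1]]
  · obtain ⟨K, hK⟩ := Pool.Agent.U62.NG.law_log hC u ε hε
    refine ⟨K, fun T H hT hH => ?_⟩
    have h := hK T H hT hH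
    rw [card_index] at h
    refine le_trans (le_of_eq ?_) h
    unfold proportion normal nagaoSum
    congr 3
    congr 2
    ext c
    simp only [Set.mem_ofPred_eq]
    refine and_congr_right fun _ => ?_
    have e : ∑ p ∈ primesUpTo T, Real.log p * fibreAverage ξ c p =
        ∑ p ∈ Pool.Agent.X280.HG.primesUpTo T, Real.log p *
          Pool.Agent.U62.NG.UU (D := n + 1) ξ p (Pool.Agent.Y722.HS.red p c) :=
      Finset.sum_congr rfl fun p hp => by
        rw [average_eq ξ c p (Finset.mem_filter.1 hp).2]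
    rw [e]
    rfl

end Pool.Agent.Results.MP_1a0ddd_nt.NormalLaw
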