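import Pool.Agent.N647.NG.NagN
import Pool.Agent.N647.NG.Expl
import Pool.Agent.N842.TX.Pit

/-!
# The Tauberian Nagao conjecture with a power saving for almost all members of thin sequences of fibrations

Let `K` be a number field, `F₀` and `h_1, ..., h_D` polynomials in `t = (t_1, ..., t_m)`, `m ≥ 1`, and `x` over its ring of
integers, `F₀` monic of odd degree in `x`, and the `h_i` of smaller degree in `x`.  We study the fibrations over the affine space
with the coordinates `t` (an open part of `ℙ^m`) whose fibres are the curves `y² = F_c(t, x)`, `F_c = F₀ + ∑ c_i h_i`, with one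
point at infinity.  The trace of the Frobenius on `H¹` of the (smooth projective) curve `y² = f(x)`, `f` of odd degree, over the
field with `q_v` elements is `q_v` minus the number of its affine points, and the average of these traces over all `t` over the
residue field is the number `𝔄_v` of the problem (the singular fibres, the points of `ℙ^m` at infinity and the finitely many bad
primes change `𝔄_v` by `O(q_v ^ (-1/2))`, and the sums below by `O(T ^ (1/2))`).

According to the problem `Σ_T(𝔄) / T` converges to `- rank J(K(t))` if the Chow trace of the Jacobian `J` of the generic fibre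
vanishes.  If the base locus of the `h_i` consists of `r` sections over which `F₀` is a square, then the members have `r` explicit
points over `K(t)`.

The coefficients are `c_i = ∑ ⌊P_(i,j)(s)⌋ ω_j` where the `P_(i,j)` are generalised polynomials (sums of real powers) and `s` is an
integer, or a prime: there is one parameter `s` only.  We show that for very few exceptions `s` the sums
`∑ w(v) (𝔄_v + r) log(q_v)` over the prime ideals (of all degrees) with `q_v ≤ T` are at most `T ^ (1 / 2 + δ)` for all `T`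
between `y` and `N ^ κ`, with arbitrary weights (for example characters) from sets of at most `T ^ B` weights which may depend on
`T`, without an arbitrary set of bad primes; and `|Σ_T(𝔄) / T + r| ≤ ε` for all these `T`.

Method (library `Pool.Agent.N647.NG`): by exponential sums the vectors of the integer parts are uniformly distributed modulo all
moduli up to a power of `N`, over the integers and over the primes; high moments of sums of local functions which are as large as
`√q_v` (the bound of Weil) but have bounded second moments; the prime ideal theorem.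
-/

set_option autoImplicit false

namespace Pool.Agent.Results.MP_1a0ddd_nt.ThinSequences

open Finset Polynomial NumberField IsDedekindDomain

section
variable {K : Type} [Field K] [NumberField K] {m D g : ℕ}

/-- The coefficients `c_i = ∑ n_(i,j) ω_j`. -/
def coeff (ω : Fin g → 𝓞 K) (n : Fin (D * g) → ℕ) (i : Fin D) : 𝓞 K := ∑ j, (n (finProdFinEquiv (i, j)) : 𝓞 K) * ω j

/-- The polynomial `F_c = F₀ + ∑ c_i h_i`, in the variable `x` over the ring of the polynomials in `t_1, ..., t_m`. -/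
noncomputable def member (F₀ : (MvPolynomial (Fin m) (𝓞 K))[X]) (h : Fin D → (MvPolynomial (Fin m) (𝓞 K))[X])
    (c : Fin D → 𝓞 K) : (MvPolynomial (Fin m) (𝓞 K))[X] := F₀ + ∑ i, C (MvPolynomial.C (c i)) * h i

/-- The residue field of the prime ideal `v`. -/
abbrev Residue (v : HeightOneSpectrum (𝓞 K)) : Type := 𝓞 K ⧸ v.asIdeal

/-- The absolute norm `q_v`. -/
noncomputable def norm (v : HeightOneSpectrum (𝓞 K)) : ℝ := Ideal.absNorm v.asIdeal

/-- The polynomial `F(t, x)` in `x` over the residue field of `v`, for a point `t` over the residue field: the fibre over `t` is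
the curve `y² = F(t, x)`. -/
noncomputable def fibre (v : HeightOneSpectrum (𝓞 K)) (F : (MvPolynomial (Fin m) (𝓞 K))[X]) (t : Fin m → Residue v) :
    (Residue v)[X] :=
  F.map (MvPolynomial.eval₂Hom (Ideal.Quotient.mk v.asIdeal) t)

/-- The trace of the Frobenius on `H¹` of the curve `y² = f(x)` over the residue field, with `f` of odd degree and without multiple
zeros: `q_v` minus the number of its affine points (there is one point at infinity). -/
noncomputable def traceOne (v : HeightOneSpectrum (𝓞 K)) (f : (Residue v)[X]) : ℝ :=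
  norm v - Nat.card {P : Residue v × Residue v // P.2 ^ 2 = f.eval P.1}

/-- The average `𝔄_v` of the traces on `H¹` of the fibres over all points `t` of the affine space over the residue field. -/
noncomputable def average (F : (MvPolynomial (Fin m) (𝓞 K))[X]) (v : HeightOneSpectrum (𝓞 K)) : ℝ :=
  (∑ᶠ t : Fin m → Residue v, traceOne v (fibre v F t)) / norm v ^ m

/-- The sum `∑ w(v) (𝔄_v + r) log(q_v)` over the prime ideals `v ∉ R` with `q_v ≤ T`. -/
noncomputable def partialSum (F : (MvPolynomial (Fin m) (𝓞 K))[X]) (r : ℝ) (w : HeightOneSpectrum (𝓞 K) → ℝ) (T : ℕ)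
    (R : Set (HeightOneSpectrum (𝓞 K))) : ℝ :=
  ∑ᶠ v ∈ {v : HeightOneSpectrum (𝓞 K) | Ideal.absNorm v.asIdeal ≤ T ∧ v ∉ R}, w v * ((average F v + r) * Real.log (norm v))

/-- The sum `Σ_T(𝔄) = ∑ 𝔄_v log(q_v)` over all the prime ideals `v` with `q_v ≤ T`. -/
noncomputable def nagaoSum (F : (MvPolynomial (Fin m) (𝓞 K))[X]) (T : ℕ) : ℝ :=
  ∑ᶠ v ∈ {v : HeightOneSpectrum (𝓞 K) | Ideal.absNorm v.asIdeal ≤ T}, average F v * Real.log (norm v)

/-- The value `F(t, x)` at the point `P = (t, x)` over the residue field of `v`. -/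
noncomputable def val (v : HeightOneSpectrum (𝓞 K)) (F : (MvPolynomial (Fin m) (𝓞 K))[X])
    (P : (Fin m → Residue v) × Residue v) : Residue v :=
  (fibre v F P.1).eval P.2

/-- The values `h_i(P)` at a point `P` over the residue field outside the base locus are not a multiple of the values `h_i(Q)` at
another point `Q`. -/
def Separated (v : HeightOneSpectrum (𝓞 K)) (h : Fin D → (MvPolynomial (Fin m) (𝓞 K))[X]) : Prop :=
  ∀ P Q : (Fin m → Residue v) × Residue v, P ≠ Q → (∃ i, val v (h i) P ≠ 0) →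
    ¬ ∃ l : Residue v, ∀ i, val v (h i) P = l * val v (h i) Q

/-- The number of the points `P` over the residue field in the base locus (the common zeros of the `h_i`). -/
noncomputable def basePoints (v : HeightOneSpectrum (𝓞 K)) (h : Fin D → (MvPolynomial (Fin m) (𝓞 K))[X]) : ℝ :=
  Nat.card {P : (Fin m → Residue v) × Residue v // ∀ i, val v (h i) P = 0}

/-- The number of the points `(P, y)` over the residue field with `P` in the base locus and `y² = F₀(P)`. -/
noncomputable def coverPoints (v : HeightOneSpectrum (𝓞 K)) (F₀ : (MvPolynomial (Fin m) (𝓞 K))[X])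
    (h : Fin D → (MvPolynomial (Fin m) (𝓞 K))[X]) : ℝ :=
  Nat.card {P : ((Fin m → Residue v) × Residue v) × Residue v // (∀ i, val v (h i) P.1 = 0) ∧ P.2 ^ 2 = val v F₀ P.1}

end

/-- `c` is the largest exponent of the generalised polynomial `∑ a x s ^ x`, `x ∈ G`; it is positive and not an integer and has a
positive coefficient. -/
def Admissible (G : Finset ℝ) (a : ℝ → ℝ) (c : ℝ) : Prop :=
  c ∈ G ∧ (∀ x ∈ G, x ≤ c) ∧ 0 < c ∧ (∀ n : ℕ, c ≠ n) ∧ 0 < a c

/-- The integer part `⌊P_j(s)⌋` of the value of the generalised polynomial number `j` (and `0` if the value is negative, which is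
the case for finitely many `s` only). -/
noncomputable def value {d : ℕ} (G : Fin d → Finset ℝ) (a : Fin d → ℝ → ℝ) (s : ℕ) (j : Fin d) : ℕ :=
  ⌊∑ x ∈ G j, a j x * (s : ℝ) ^ x⌋₊

section
variable {K : Type} [Field K] [NumberField K] {m D g : ℕ}

/-- For `y ≤ T ≤ N ^ κ`: the sum of `w(v) (𝔄_v + r) log(q_v)` over the prime ideals `v ∉ R` with `q_v ≤ T` is at most
`T ^ (1 / 2 + δ)` in absolute value, for all weights `w ∈ W T` and all sets `R` of prime ideals which divide `Z(c)`, and
`Σ_T(𝔄) / T` differs from `- r` by at most `ε`. -/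
def Good (ω : Fin g → 𝓞 K) (F₀ : (MvPolynomial (Fin m) (𝓞 K))[X]) (h : Fin D → (MvPolynomial (Fin m) (𝓞 K))[X])
    (r : ℝ) (Z : MvPolynomial (Fin D) (𝓞 K)) (δ ε κ : ℝ) (y N : ℕ) (W : ℕ → Set (HeightOneSpectrum (𝓞 K) → ℝ))
    (n : Fin (D * g) → ℕ) : Prop :=
  ∀ T : ℕ, y ≤ T → (T : ℝ) ≤ (N : ℝ) ^ κ →
    (∀ w ∈ W T, ∀ R : Set (HeightOneSpectrum (𝓞 K)), (∀ v ∈ R, MvPolynomial.eval (coeff ω n) Z ∈ v.asIdeal) →
      |partialSum (member F₀ h (coeff ω n)) r w T R| ≤ (T : ℝ) ^ (1 / 2 + δ)) ∧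
    |nagaoSum (member F₀ h (coeff ω n)) T / T + r| ≤ ε

open Classical in
/-- For all generalised polynomials `P_j(s) = ∑ a j x s ^ x` with distinct leading exponents which are positive and not integers and
have positive coefficients, all `δ, ε > 0`, `A`, `B` there are `κ > 0` and `y₀` such that for all `y ≥ y₀`, all `N` and all sets
`W T`, one for each `T`, of at most `T ^ B` weights with values in `[-1, 1]`: the member with the numbers `n_j = ⌊P_j(s)⌋` is
`Good` for all integers `s` in `(N, 2 N]` with at most `N / y ^ A` exceptions, and for all primes `s` in `(N, 2 N]` with the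
exception of at most a proportion `1 / y ^ A` of them. -/
def Holds (ω : Fin g → 𝓞 K) (F₀ : (MvPolynomial (Fin m) (𝓞 K))[X]) (h : Fin D → (MvPolynomial (Fin m) (𝓞 K))[X])
    (r : ℝ) (Z : MvPolynomial (Fin D) (𝓞 K)) : Prop :=
  ∀ (G : Fin (D * g) → Finset ℝ) (a : Fin (D * g) → ℝ → ℝ) (c : Fin (D * g) → ℝ), (∀ j, Admissible (G j) (a j) (c j)) →
    Function.Injective c → ∀ δ ε : ℝ, 0 < δ → 0 < ε → ∀ A B : ℕ,
    ∃ κ : ℝ, 0 < κ ∧ ∃ y₀ : ℕ, ∀ y N : ℕ, y₀ ≤ y → ∀ W : ℕ → Set (HeightOneSpectrum (𝓞 K) → ℝ),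
      (∀ T, (W T).Finite ∧ (W T).ncard ≤ T ^ B) → (∀ T, ∀ w ∈ W T, ∀ v, |w v| ≤ 1) →
      (((Ioc N (2 * N)).filter fun s => ¬ Good ω F₀ h r Z δ ε κ y N W (value G a s)).card : ℝ) ≤ 1 / (y : ℝ) ^ A * N ∧
      ((((Ioc N (2 * N)).filter Nat.Prime).filter fun s => ¬ Good ω F₀ h r Z δ ε κ y N W (value G a s)).card : ℝ) ≤
        1 / (y : ℝ) ^ A * ((Ioc N (2 * N)).filter Nat.Prime).card

lemma average_eq (F : (MvPolynomial (Fin m) (𝓞 K))[X]) (v : HeightOneSpectrum (𝓞 K)) :
    average F v = Pool.Agent.N647.NG.AA (Pool.Agent.N647.NG.mkv v) F := by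
  classical
  have hq : norm v = Nat.card (𝓞 K ⧸ v.asIdeal) := by
    unfold norm
    rw [Pool.Agent.N842.HS.norm_card]
  have : Finite (Residue v) := Ideal.finiteQuotientOfFreeOfNeBot v.asIdeal v.ne_bot
  have : Fintype (Residue v) := Fintype.ofFinite _
  have hpos : (0 : ℝ) < norm v := by
    rw [hq]
    exact_mod_cast Nat.card_pos
  have h1 : (Pool.Agent.N647.NG.pts (Pool.Agent.N647.NG.mkv v) F : ℝ) = ∑ t : Fin m → Residue v,
      (Nat.card {P : Residue v × Residue v // P.2 ^ 2 = (fibre v F t).eval P.1} : ℝ) := by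
    unfold Pool.Agent.N647.NG.pts
    have e : {P : (Fin m → Residue v) × Residue v × Residue v //
        P.2.2 ^ 2 = (Pool.Agent.N647.NG.ev (Pool.Agent.N647.NG.mkv v) P.1 F).eval P.2.1} ≃
        (Σ t : Fin m → Residue v, {P : Residue v × Residue v // P.2 ^ 2 = (fibre v F t).eval P.1}) :=
      { toFun := fun P => ⟨P.1.1, ⟨P.1.2, P.2⟩⟩
        invFun := fun Q => ⟨(Q.1, Q.2.1), Q.2.2⟩
        left_inv := fun P => rfl
        right_inv := fun Q => rfl }
    rw [Nat.card_congr e, Nat.card_sigma]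
    push_cast
    rfl
  unfold average Pool.Agent.N647.NG.AA
  rw [h1, finsum_eq_sum_of_fintype]
  unfold traceOne
  rw [sum_sub_distrib, sum_const, card_univ, nsmul_eq_mul, sub_div, ← hq]
  congr 1
  have h2 : (Fintype.card (Fin m → Residue v) : ℝ) = norm v ^ m := by
    rw [Fintype.card_pi, prod_const, card_univ, Fintype.card_fin, hq, Nat.card_eq_fintype_card]
    push_cast
    rfl
  rw [h2, mul_comm, mul_div_assoc, div_self (by positivity), mul_one]

lemma partialSum_eq (F : (MvPolynomial (Fin m) (𝓞 K))[X]) (r : ℝ) (w : HeightOneSpectrum (𝓞 K) → ℝ) (T : ℕ)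
    (R : Set (HeightOneSpectrum (𝓞 K))) [DecidablePred (fun v => v ∉ R)] :
    partialSum F r w T R = ∑ v ∈ (Pool.Agent.N842.HS.VT K T).filter (fun v => v ∉ R),
      w v * ((Pool.Agent.N647.NG.AA (Pool.Agent.N647.NG.mkv v) F + r) * Real.log (Ideal.absNorm v.asIdeal)) := by
  classical
  have h1 : {v : HeightOneSpectrum (𝓞 K) | Ideal.absNorm v.asIdeal ≤ T ∧ v ∉ R} =
      (((Pool.Agent.N842.HS.VT K T).filter (fun v => v ∉ R) : Finset (HeightOneSpectrum (𝓞 K))) : Set (HeightOneSpectrum (𝓞 K))) := by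
    ext v
    rw [mem_coe, mem_filter, Pool.Agent.N842.HS.mem_VT]
    exact Iff.rfl
  unfold partialSum
  rw [h1, finsum_mem_coe_finset]
  refine sum_congr rfl fun v _ => ?_
  rw [average_eq]
  rfl

lemma nagaoSum_eq (F : (MvPolynomial (Fin m) (𝓞 K))[X]) (T : ℕ) :
    nagaoSum F T = ∑ v ∈ Pool.Agent.N842.HS.VT K T,
      Pool.Agent.N647.NG.AA (Pool.Agent.N647.NG.mkv v) F * Real.log (Ideal.absNorm v.asIdeal) := by
  classical
  have h1 : {v : HeightOneSpectrum (𝓞 K) | Ideal.absNorm v.asIdeal ≤ T} =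
      ((Pool.Agent.N842.HS.VT K T : Finset (HeightOneSpectrum (𝓞 K))) : Set (HeightOneSpectrum (𝓞 K))) := by
    ext v
    rw [mem_coe, Pool.Agent.N842.HS.mem_VT]
    exact Iff.rfl
  unfold nagaoSum
  rw [h1, finsum_mem_coe_finset]
  refine sum_congr rfl fun v _ => ?_
  rw [average_eq]
  rfl

lemma g_pos (ω : Fin g → 𝓞 K) (hω : Submodule.span ℤ (Set.range ω) = ⊤) : 1 ≤ g := by
  rcases Nat.eq_zero_or_pos g with h0 | h0
  · subst h0
    rw [Set.range_eq_empty, Submodule.span_empty] at hω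
    have h1 : (1 : 𝓞 K) ∈ (⊥ : Submodule ℤ (𝓞 K)) := by
      rw [hω]
      exact Submodule.mem_top
    rw [Submodule.mem_bot] at h1
    exact absurd h1 one_ne_zero
  · exact h0

theorem holds_main (hm : 1 ≤ m) (hD : 1 ≤ D) (ω : Fin g → 𝓞 K) (hω : Submodule.span ℤ (Set.range ω) = ⊤)
    (F₀ : (MvPolynomial (Fin m) (𝓞 K))[X]) (h : Fin D → (MvPolynomial (Fin m) (𝓞 K))[X])
    (hF : F₀.Monic) (ho : Odd F₀.natDegree) (hh : ∀ i, (h i).natDegree < F₀.natDegree) (r C₀ : ℝ)
    (S : Set (HeightOneSpectrum (𝓞 K))) (hS : S.Finite) (hs : ∀ v ∉ S, Separated v h)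
    (hb : ∀ v ∉ S, |coverPoints v F₀ h - basePoints v h - r * norm v ^ m| ≤ C₀ * (norm v ^ m / Real.sqrt (norm v)))
    (Z : MvPolynomial (Fin D) (𝓞 K)) (hZ : Z ≠ 0) : Holds ω F₀ h r Z := by
  classical
  intro G a c ha hc δ ε hδ hε A B
  obtain ⟨g', hg'⟩ := ho
  have hDg : 1 ≤ D * g := Nat.one_le_iff_ne_zero.2 (Nat.mul_ne_zero (by omega) (by have := g_pos ω hω; omega))
  obtain ⟨δ', hδ'⟩ : ∃ δ', δ' = min δ (1 / 4) := ⟨_, rfl⟩
  have hδ'0 : 0 < δ' := by rw [hδ']; exact lt_min hδ (by norm_num)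
  have hδ'1 : δ' ≤ δ := by rw [hδ']; exact min_le_left _ _
  have hδ'2 : δ' ≤ 1 / 4 := by rw [hδ']; exact min_le_right _ _
  obtain ⟨κ, hκ, y₁, h1⟩ := Pool.Agent.N647.NG.nagN hm F₀ h hF hg' (fun i => by rw [← hg']; exact hh i) r C₀ S hS hs hb Z hZ ω hω hDg
    (G := G) (a := a) (c := c) ha hc δ' hδ'0 A (B + 1)
  -- the prime ideal theorem
  have hpit := Pool.Agent.N842.TX.pit_tendsto (K := K)
  have hev1 : ∀ᶠ T : ℕ in Filter.atTop,
      |(∑ v ∈ Pool.Agent.N842.HS.VT K T, Real.log (Ideal.absNorm v.asIdeal)) / T - 1| * (|r| + 1) ≤ ε / 2 := by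
    have h2 : Filter.Tendsto (fun T : ℕ => |(∑ v ∈ Pool.Agent.N842.HS.VT K T, Real.log (Ideal.absNorm v.asIdeal)) / T - 1| * (|r| + 1))
        Filter.atTop (nhds (|(1 : ℝ) - 1| * (|r| + 1))) :=
      ((hpit.sub_const 1).abs).mul_const _
    rw [sub_self, abs_zero, zero_mul] at h2
    exact h2.eventually (ge_mem_nhds (by positivity))
  have hev2 : ∀ᶠ T : ℕ in Filter.atTop, (T : ℝ) ^ (-(1 / 4) : ℝ) ≤ ε / 2 := by
    have h2 : Filter.Tendsto (fun T : ℕ => (T : ℝ) ^ (-(1 / 4) : ℝ)) Filter.atTop (nhds 0) :=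
      (tendsto_rpow_neg_atTop (by norm_num)).comp tendsto_natCast_atTop_atTop
    exact h2.eventually (ge_mem_nhds (by positivity))
  obtain ⟨y₂, hy₂⟩ := Filter.eventually_atTop.1 (hev1.and hev2)
  refine ⟨κ, hκ, y₁ + y₂ + 2, fun y N hy W hW hW1 => ?_⟩
  obtain ⟨W', hW'⟩ : ∃ W' : ℕ → Set (HeightOneSpectrum (𝓞 K) → ℝ), W' = fun T => if 2 ≤ T then insert (fun _ => (1 : ℝ)) (W T) else ∅ := ⟨_, rfl⟩
  refine h1 y N (by omega) W' (fun T => ?_) (fun T w hw v => ?_) (fun n => Good ω F₀ h r Z δ ε κ y N W n) fun n hn T hyT hTN => ?_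
  · rw [hW']
    beta_reduce
    split_ifs with hT
    · refine ⟨(hW T).1.insert _, (Set.ncard_insert_le _ _).trans ?_⟩
      have h3 := (hW T).2
      have h4 : 1 ≤ T ^ B := Nat.one_le_pow _ _ (by omega)
      calc (W T).ncard + 1 ≤ T ^ B + T ^ B := by omega
        _ = T ^ B * 2 := by ring
        _ ≤ T ^ B * T := Nat.mul_le_mul_left _ hT
        _ = T ^ (B + 1) := (pow_succ _ _).symm
    · exact ⟨Set.finite_empty, by rw [Set.ncard_empty]; exact Nat.zero_le _⟩
  · rw [hW'] at hw
    beta_reduce at hw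
    split_ifs at hw with hT
    · rcases Set.mem_insert_iff.1 hw with hw | hw
      · rw [hw]; simp
      · exact hW1 T w hw v
    · exact absurd hw (Set.notMem_empty _)
  · have hT2 : 2 ≤ T := by omega
    have hT0 : (0 : ℝ) < T := by exact_mod_cast (by omega : 0 < T)
    have hT1 : (1 : ℝ) ≤ T := by exact_mod_cast (by omega : 1 ≤ T)
    have hWT : W' T = insert (fun _ => (1 : ℝ)) (W T) := by rw [hW']; beta_reduce; rw [if_pos hT2]
    have hmono : (T : ℝ) ^ (1 / 2 + δ') ≤ (T : ℝ) ^ (1 / 2 + δ) := Real.rpow_le_rpow_of_exponent_le hT1 (by linarith)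
    refine ⟨fun w hw R hR => ?_, ?_⟩
    · rw [partialSum_eq]
      exact (hn T hyT hTN w (by rw [hWT]; exact Set.mem_insert_of_mem _ hw) R hR).trans hmono
    · have h3 := hn T hyT hTN (fun _ => (1 : ℝ)) (by rw [hWT]; exact Set.mem_insert _ _) ∅ (fun v hv => absurd hv (Set.notMem_empty _))
      obtain ⟨h5, h6⟩ := hy₂ T (by omega)
      obtain ⟨Λ, hΛ⟩ : ∃ Λ : ℝ, Λ = ∑ v ∈ Pool.Agent.N842.HS.VT K T, Real.log (Ideal.absNorm v.asIdeal) := ⟨_, rfl⟩
      rw [← hΛ] at h5
      have h4 : ∑ v ∈ (Pool.Agent.N842.HS.VT K T).filter (fun v => v ∉ (∅ : Set (HeightOneSpectrum (𝓞 K)))),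
          (1 : ℝ) * ((Pool.Agent.N647.NG.AA (Pool.Agent.N647.NG.mkv v) (Pool.Agent.N647.NG.mem F₀ h (Pool.Agent.N842.HS.cf ω n)) + r) *
            Real.log (Ideal.absNorm v.asIdeal)) = nagaoSum (member F₀ h (coeff ω n)) T + r * Λ := by
        rw [nagaoSum_eq, hΛ, Finset.filter_true_of_mem (fun v _ => Set.notMem_empty v), mul_sum, ← sum_add_distrib]
        refine sum_congr rfl fun v _ => ?_
        rw [one_mul, add_mul]
        rfl
      replace h3 : |nagaoSum (member F₀ h (coeff ω n)) T + r * Λ| ≤ (T : ℝ) ^ (1 / 2 + δ') := by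
        rw [← h4]
        convert h3 using 3
        ext v
        simp only [mem_filter]
      have h7 : nagaoSum (member F₀ h (coeff ω n)) T / T + r =
          (nagaoSum (member F₀ h (coeff ω n)) T + r * Λ) / T - r * (Λ / T - 1) := by
        field_simp
        ring
      have h8 : |(nagaoSum (member F₀ h (coeff ω n)) T + r * Λ) / T| ≤ ε / 2 := by
        rw [abs_div, abs_of_pos hT0]
        refine le_trans ?_ h6
        rw [div_le_iff₀ hT0]
        refine h3.trans ?_
        have h9 : (T : ℝ) ^ (-(1 / 4) : ℝ) * T = (T : ℝ) ^ (3 / 4 : ℝ) := by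
          nth_rw 2 [← Real.rpow_one (T : ℝ)]
          rw [← Real.rpow_add hT0]
          norm_num
        rw [h9]
        exact Real.rpow_le_rpow_of_exponent_le hT1 (by linarith)
      have h10 : |r * (Λ / T - 1)| ≤ ε / 2 := by
        rw [abs_mul]
        refine le_trans ?_ h5
        rw [mul_comm]
        exact mul_le_mul_of_nonneg_left (by linarith) (abs_nonneg _)
      rw [h7]
      refine (abs_sub _ _).trans ?_
      linarith

end

section explicit
variable (K : Type) [Field K] [NumberField K] (d r e m : ℕ)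

/-- `(x - 1) ⋯ (x - r)`. -/
noncomputable def linearFactors : (MvPolynomial (Fin (m + 1)) (𝓞 K))[X] :=
  ∏ j ∈ range r, (X - C (((j + 1 : ℕ) : MvPolynomial (Fin (m + 1)) (𝓞 K))))

/-- `(x - 1) ⋯ (x - r) x ^ (d - r) + t_1 ^ 2`. -/
noncomputable def fixedPart : (MvPolynomial (Fin (m + 1)) (𝓞 K))[X] :=
  linearFactors K r m * X ^ (d - r) + C (MvPolynomial.X 0 ^ 2)

/-- The exponents `(a, α)` with `a < d - r` and `α_k ≤ e`, `1 ≤ k ≤ m + 1`. -/
abbrev Exponents : Type := Fin (d - r) × (Fin (m + 1) → Fin (e + 1))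

/-- `(x - 1) ⋯ (x - r) x ^ a t ^ α` for `i = (a, α)`. -/
noncomputable def variablePart (i : Exponents d r e m) : (MvPolynomial (Fin (m + 1)) (𝓞 K))[X] :=
  linearFactors K r m * (X ^ (i.1 : ℕ) * C (∏ k, MvPolynomial.X k ^ (i.2 k : ℕ)))

end explicit

/-- **Part 1.** Let `K` be a number field, `m ≥ 1`, `ω_1, ..., ω_g` generators of the group `𝓞 K` (for example an integral basis), `F₀`
a polynomial in `x` and `t = (t_1, ..., t_m)` over `𝓞 K` which is monic of odd degree in `x`, and `h_1, ..., h_D` polynomials of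
smaller degree in `x`.  Suppose that for all but finitely many prime ideals `v` the `h_i` separate the points outside the base locus
over the residue field, and that the sum of the quadratic character of `F₀` over the base locus is `r q_v ^ m` up to
`O(q_v ^ (m - 1 / 2))` (for example if the base locus consists of `r` sections over which `F₀` is a square).  Then `Holds`, for every
nonzero polynomial `Z`: the sums `∑ w(v) (𝔄_v + r) log(q_v)`, `q_v ≤ T`, for the fibrations in the curves
`y² = F₀(t, x) + ∑ c_i h_i(t, x)` with `c_i = ∑ ⌊P_(i,j)(s)⌋ ω_j` are at most `T ^ (1 / 2 + δ)`, and `|Σ_T(𝔄) / T + r| ≤ ε`, for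
`y ≤ T ≤ N ^ κ`, for almost all integers, and almost all primes, `s` in `(N, 2 N]`.

**Part 2.** This is the case for the families `y² = (x - 1) ⋯ (x - r) (x ^ (d - r) + G_c(t, x)) + t_1 ^ 2`, where `G_c` is the
polynomial with all the monomials `x ^ a t ^ α` with `a < d - r` and `α_k ≤ e`, for odd `d ≥ r + 2` and `e ≥ 1`, over the base with
the coordinates `t_1, ..., t_(m + 1)`, `m ≥ 0`, which have the sections `(j, t_1)`, `1 ≤ j ≤ r` (`E` is an enumeration of the
monomials). -/
theorem result :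
    (∀ (K : Type) [Field K] [NumberField K] (m D g : ℕ), 1 ≤ m → 1 ≤ D → ∀ ω : Fin g → 𝓞 K, Submodule.span ℤ (Set.range ω) = ⊤ →
      ∀ (F₀ : (MvPolynomial (Fin m) (𝓞 K))[X]) (h : Fin D → (MvPolynomial (Fin m) (𝓞 K))[X]),
      F₀.Monic → Odd F₀.natDegree → (∀ i, (h i).natDegree < F₀.natDegree) → ∀ (r C₀ : ℝ) (S : Set (HeightOneSpectrum (𝓞 K))), S.Finite →
      (∀ v ∉ S, Separated v h) →
      (∀ v ∉ S, |coverPoints v F₀ h - basePoints v h - r * norm v ^ m| ≤ C₀ * (norm v ^ m / Real.sqrt (norm v))) →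
      ∀ Z : MvPolynomial (Fin D) (𝓞 K), Z ≠ 0 → Holds ω F₀ h r Z) ∧
    (∀ (K : Type) [Field K] [NumberField K] (d r e m D g : ℕ), r + 2 ≤ d → Odd d → 1 ≤ e →
      ∀ ω : Fin g → 𝓞 K, Submodule.span ℤ (Set.range ω) = ⊤ → ∀ E : Fin D ≃ Exponents d r e m,
      ∀ Z : MvPolynomial (Fin D) (𝓞 K), Z ≠ 0 →
        Holds ω (fixedPart K d r m) (fun i => variablePart K d r e m (E i)) r Z) := by
  refine ⟨fun K _ _ m D g hm hD ω hω F₀ h hF ho hh r C₀ S hS hs hb Z hZ => holds_main hm hD ω hω F₀ h hF ho hh r C₀ S hS hs hb Z hZ,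
    fun K _ _ d r e m D g hd ho he ω hω E Z hZ => ?_⟩
  have hD : 1 ≤ D := by
    by_contra hcon
    have h0 : D = 0 := by omega
    subst h0
    exact (E.symm (⟨0, by omega⟩, fun _ => 0)).elim0
  obtain ⟨h2, h3⟩ := Pool.Agent.N647.NG.Fe_deg (𝓞 K) d r m (by omega)
  refine holds_main (by omega) hD ω hω _ _ h2 ?_ (fun i => ?_) r r _ (Pool.Agent.N647.NG.finite_e r) (fun v _ => ?_) (fun v hv => ?_) Z hZ
  · rw [h3]
    exact ho
  · rw [h3]
    exact Pool.Agent.N647.NG.he_deg (𝓞 K) d r e m (by omega) (E i)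
  · exact Pool.Agent.N647.NG.sepV_e d r e m D E hd he v
  · rw [Set.mem_union, not_or] at hv
    exact Pool.Agent.N647.NG.base_e d r e m D E hd v hv.1 hv.2

end Pool.Agent.Results.MP_1a0ddd_nt.ThinSequences
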